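import Pool.Agent.helper90.IV.Spec
import Pool.Agent.helper23.TH.Main

set_option autoImplicit false

open scoped BigOperators

namespace Pool.Agent.helper98.IV

open Pool.Agent.helper23.TH Pool.Agent.KS Pool.Agent.IV

noncomputable section

open Classical

theorem FIN (hLBI : LBI_stmt) (hLN : LN_stmt) (hLB : LB_stmt2) (hLC : LC_stmt) (hCB1 : CB1_stmt) (hCB2 : CB2_stmt)
    (hUB : UB_stmt) (hMO : MONO_stmt) (hISO : ISO_stmt) : Pool.Agent.IV.FIN_stmt := by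
  intro r hr1 hr2
  -- parameters
  obtain ⟨ρ, hρ⟩ : ∃ ρ : ℚ, ρ = (1 / (r - 1) - 1) / 2 := ⟨_, rfl⟩
  have hr0 : 0 < r - 1 := by linarith
  have hr7 : 7 ≤ 1 / (r - 1) := by
    rw [le_div_iff₀ hr0]
    linarith
  have hρ3 : 3 ≤ ρ := by rw [hρ]; linarith
  have h2ρ : 1 / (r - 1) = 1 + 2 * ρ := by rw [hρ]; ring
  obtain ⟨s, hs⟩ : ∃ s : ℕ, s = ⌊ρ⌋₊ + 1 := ⟨_, rfl⟩
  have hfl : 3 ≤ ⌊ρ⌋₊ := Nat.le_floor (by exact_mod_cast hρ3)
  have hs4 : 4 ≤ s := by omega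
  have hfle : ((⌊ρ⌋₊ : ℕ) : ℚ) ≤ ρ := Nat.floor_le (by linarith)
  have hlt : ρ < (⌊ρ⌋₊ : ℕ) + 1 := Nat.lt_floor_add_one ρ
  have hsq : (s : ℚ) = (⌊ρ⌋₊ : ℕ) + 1 := by rw [hs]; push_cast; ring
  have hs1 : (s : ℚ) - 1 ≤ ρ := by rw [hsq]; linarith
  have hs2 : ρ < s := by rw [hsq]; exact hlt
  have hd : 0 < (s : ℚ) - ρ := by linarith
  have hμ : 1 ≤ (ρ - (s - 2)) / (s - ρ) := by
    rw [le_div_iff₀ hd]
    linarith
  obtain ⟨h, pj, hA, hE⟩ := hCB2 _ hμ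
  have hCB := hCB1 s h pj ρ (by omega) hs1 hs2 (by
    intro A
    have h1 := mul_le_mul_of_nonneg_left (hA A) hd.le
    have h2 : (s - ρ) * ((ρ - (s - 2)) / (s - ρ) * A.card) = (ρ - (s - 2)) * A.card := by
      rw [← mul_assoc, mul_div_cancel₀ _ hd.ne']
    rw [h2] at h1
    exact h1) (by
    rw [hE, ← mul_assoc, mul_div_cancel₀ _ hd.ne'])
  obtain ⟨hU, hUn⟩ := hCB
  -- the graph
  obtain ⟨hl1, hl2, hl3⟩ := hLN (CI h pj) (cat s h pj) chub
  have hbal := hLB (CI h pj) (cat s h pj) chub ρ (by linarith) hU hUn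
  obtain ⟨c, hc⟩ : ∃ c : ℕ, c = Fintype.card (CI h pj) := ⟨_, rfl⟩
  have hcpos : 1 ≤ c := by
    rw [hc]
    exact Fintype.card_pos_iff.2 ⟨Sum.inl 0⟩
  have hcq : (1 : ℚ) ≤ c := by exact_mod_cast hcpos
  rw [hl1] at hl2 hl3
  have hv : (((LS (cat s h pj) chub).v : ℕ) : ℚ) = (1 + ρ) * c := by
    rw [hl2]
    push_cast
    rw [hUn, ← hc]
    ring
  have he : (((LS (cat s h pj) chub).e : ℕ) : ℚ) = (1 + 2 * ρ) * c := by
    rw [hl3]
    push_cast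
    rw [hUn, ← hc]
    ring
  have hv1 : 1 ≤ (LS (cat s h pj) chub).v := by
    have : (1 : ℚ) ≤ ((LS (cat s h pj) chub).v : ℕ) := by rw [hv]; nlinarith
    exact_mod_cast this
  have he1 : 1 ≤ (LS (cat s h pj) chub).e := by
    have : (1 : ℚ) ≤ ((LS (cat s h pj) chub).e : ℕ) := by rw [he]; nlinarith
    exact_mod_cast this
  have hev : (LS (cat s h pj) chub).e ≤ 2 * (LS (cat s h pj) chub).v := by
    have : (((LS (cat s h pj) chub).e : ℕ) : ℚ) ≤ 2 * ((LS (cat s h pj) chub).v : ℕ) := by rw [he, hv]; nlinarith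
    exact_mod_cast this
  -- exponents
  have hexpq : 2 * (((LS (cat s h pj) chub).v : ℕ) : ℚ) / ((LS (cat s h pj) chub).e : ℕ) = r := by
    have h1 : (0 : ℚ) < 1 + 2 * ρ := by linarith
    have h2 : r - 1 = 1 / (1 + 2 * ρ) := by
      rw [← h2ρ, one_div_one_div]
    have h3 : r = 1 + 1 / (1 + 2 * ρ) := by linarith
    rw [he, hv, h3]
    have hc0 : (c : ℚ) ≠ 0 := by linarith
    field_simp
    ring
  have hexp : 2 * (((LS (cat s h pj) chub).v : ℕ) : ℝ) / ((LS (cat s h pj) chub).e : ℕ) = (r : ℝ) := by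
    have h1 := congrArg (fun x : ℚ => (x : ℝ)) hexpq
    push_cast at h1
    exact h1
  have hexp2 : 1 + 1 / (1 + 2 * (ρ : ℝ)) = (r : ℝ) := by
    have h2 : r - 1 = 1 / (1 + 2 * ρ) := by
      rw [← h2ρ, one_div_one_div]
    have h3 : 1 + 1 / (1 + 2 * ρ) = r := by linarith
    have h1 := congrArg (fun x : ℚ => (x : ℝ)) h3
    push_cast at h1
    exact h1
  have hfalse : ∃ u : CI h pj, chub u = false := by
    by_contra hno
    push Not at hno
    have hh : h = 0 := by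
      by_contra hh
      exact hno (Sum.inr (Sum.inl ⟨0, Nat.pos_of_ne_zero hh⟩)) rfl
    have hp : ∀ j, pj j = 0 := by
      intro j
      by_contra hj
      exact hno (Sum.inr (Sum.inr ⟨j, ⟨0, Nat.pos_of_ne_zero hj⟩⟩)) rfl
    have h0 : (∑ j, (pj j : ℚ)) + h = 0 := by
      rw [Finset.sum_eq_zero (fun j _ => by rw [hp j]; simp), hh]
      simp
    rw [h0] at hE
    have h1 : (0 : ℚ) < (h : ℚ) + 1 := by positivity
    nlinarith
  -- the law
  obtain ⟨p₀, hup⟩ := MAIN_upper hMO hUB (LS (cat s h pj) chub) hbal hv1 he1 hev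
  obtain ⟨C, hC, N, hup⟩ := hup (max p₀ 1) (le_max_left _ _)
  obtain ⟨c', hc', N', hlow⟩ := hLBI s h pj (ρ : ℝ) (max p₀ 1) hs4
    (by exact_mod_cast hs1) (le_max_right _ _) hfalse (fun U => by exact_mod_cast hU U)
  have hlaw : Law ((LS (cat s h pj) chub).pw (max p₀ 1)) (r : ℝ) := by
    refine ⟨c', C, hc', hC, max N N', fun n hn => ⟨?_, fun m χ h1 h3 => ?_⟩⟩
    · obtain ⟨m, hm, χ, h1, h3⟩ := hup n ((le_max_left _ _).trans hn)
      rw [hexp] at hm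
      exact ⟨m, hm, χ, h1, h3⟩
    · have h4 := hlow n ((le_max_right _ _).trans hn) m χ h1 h3
      rw [hexp2] at h4
      exact h4
  exact hISO _ _ _ (hLC (CI h pj) (cat s h pj) chub (max p₀ 1)) hlaw

end

end Pool.Agent.helper98.IV
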